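import Mathlib

/-!
MP_ee8878_co, Q1.  The group `G = (ℤ/2)^4` (exponent `2`) acts on `ℤ^6` by affine automorphisms
preserving the product `P = Δ_3 × Δ_3` of two unimodular tetrahedra, in such a way that `P` has no
`G`-invariant triangulation with vertices in `(1/N) ℤ^6`, for any `N` not divisible by `4`; in
particular there is none with vertices in `(1/e(G)) ℤ^6`.
-/

set_option autoImplicit false

namespace Pool.Agent.Results.MP_ee8878_co.NoInvariantTriangulation

open Geometry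

/-! ### Definitions -/

/-- A homomorphism `ρ : G → Aff(ℤ^d)`, written `ρ(g)(u) = A_g u + b_g`. -/
structure AffAction (G : Type) [Group G] (d : ℕ) where
  /-- linear parts -/
  A : G → Matrix (Fin d) (Fin d) ℤ
  /-- translation parts -/
  b : G → Fin d → ℤ
  A_one : A 1 = 1
  b_one : b 1 = 0
  A_mul : ∀ g h, A (g * h) = A g * A h
  b_mul : ∀ g h, b (g * h) = (A g).mulVec (b h) + b g

/-- the affine map `x ↦ A_g x + b_g` of `ℝ^d` -/
noncomputable def AffAction.act {G : Type} [Group G] {d : ℕ} (ρ : AffAction G d) (g : G) :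
    (Fin d → ℝ) →ᵃ[ℝ] (Fin d → ℝ) :=
  (Matrix.mulVecLin ((ρ.A g).map (Int.cast : ℤ → ℝ))).toAffineMap
    + AffineMap.const ℝ _ (fun i => ((ρ.b g i : ℤ) : ℝ))

/-- the lattice polytope with vertices among the integer points in `V` -/
def poly {d : ℕ} (V : Finset (Fin d → ℤ)) : Set (Fin d → ℝ) :=
  convexHull ℝ ((fun v : Fin d → ℤ => fun j => ((v j : ℤ) : ℝ)) '' (V : Set (Fin d → ℤ)))

/-- `K` is a triangulation of `P`: finitely many simplices, with union `P`. -/
def IsTriangulation {d : ℕ} (K : SimplicialComplex ℝ (Fin d → ℝ)) (P : Set (Fin d → ℝ)) : Prop :=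
  K.faces.Finite ∧ K.space = P

/-- all vertices of `K` lie in `(1/N) ℤ^d` -/
def VerticesIn {d : ℕ} (K : SimplicialComplex ℝ (Fin d → ℝ)) (N : ℕ) : Prop :=
  ∀ v ∈ K.vertices, ∃ z : Fin d → ℤ, ∀ i, (N : ℝ) * v i = z i

open Classical in
/-- every `ρ(g)` maps each simplex of `K` onto a simplex of `K` -/
def Invariant {G : Type} [Group G] {d : ℕ} (ρ : AffAction G d)
    (K : SimplicialComplex ℝ (Fin d → ℝ)) : Prop :=
  ∀ g : G, ∀ s ∈ K.faces, s.image (ρ.act g) ∈ K.faces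

/-! ### The action -/

/-- linear part of the action of `(ℤ/2)^2` on the tetrahedron `conv(0, e_1, e_2, e_3)` by double
transpositions of the four vertices -/
def A1 (s t : ZMod 2) : Matrix (Fin 3) (Fin 3) ℤ :=
  if s = 0 then (if t = 0 then 1 else !![0, 0, 1; -1, -1, -1; 1, 0, 0])
  else (if t = 0 then !![-1, -1, -1; 0, 0, 1; 0, 1, 0] else !![0, 1, 0; 1, 0, 0; -1, -1, -1])

/-- translation part -/
def b1 (s t : ZMod 2) : Fin 3 → ℤ :=
  if s = 0 then (if t = 0 then 0 else ![0, 1, 0]) else (if t = 0 then ![1, 0, 0] else ![0, 0, 1])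

/-- the group `(ℤ/2)^4` -/
abbrev G4 : Type := Multiplicative (ZMod 2 × ZMod 2 × ZMod 2 × ZMod 2)

/-- block diagonal linear part -/
def A6 (g : G4) : Matrix (Fin 6) (Fin 6) ℤ :=
  Matrix.of fun i j =>
    if h : i.1 < 3 then
      (if h' : j.1 < 3 then A1 (Multiplicative.toAdd g).1 (Multiplicative.toAdd g).2.1
        ⟨i.1, h⟩ ⟨j.1, h'⟩ else 0)
    else
      (if h' : j.1 < 3 then 0 else A1 (Multiplicative.toAdd g).2.2.1 (Multiplicative.toAdd g).2.2.2
        ⟨i.1 - 3, by omega⟩ ⟨j.1 - 3, by omega⟩)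

/-- translation part -/
def b6 (g : G4) : Fin 6 → ℤ := fun i =>
  if h : i.1 < 3 then b1 (Multiplicative.toAdd g).1 (Multiplicative.toAdd g).2.1 ⟨i.1, h⟩
  else b1 (Multiplicative.toAdd g).2.2.1 (Multiplicative.toAdd g).2.2.2 ⟨i.1 - 3, by omega⟩

theorem A6_one : A6 1 = 1 := by decide +kernel

theorem b6_one : b6 1 = 0 := by decide +kernel

theorem A6_mul : ∀ g h : G4, A6 (g * h) = A6 g * A6 h := by decide +kernel

theorem b6_mul : ∀ g h : G4, b6 (g * h) = (A6 g).mulVec (b6 h) + b6 g := by decide +kernel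

/-- the action of `(ℤ/2)^4` on `ℤ^6` -/
def ρ : AffAction G4 6 := ⟨A6, b6, A6_one, b6_one, A6_mul, b6_mul⟩

/-- the vertices of `Δ_3 × Δ_3` -/
def V : Finset (Fin 6 → ℤ) :=
  (Finset.univ : Finset (Option (Fin 3) × Option (Fin 3))).image fun p => fun i =>
    if h : i.1 < 3 then (if p.1 = some ⟨i.1, h⟩ then 1 else 0)
    else (if p.2 = some ⟨i.1 - 3, by omega⟩ then 1 else 0)

theorem V_inv : ∀ g : G4, ∀ v ∈ V, (A6 g).mulVec v + b6 g ∈ V := by decide +kernel

theorem exponent_G4 : Monoid.exponent G4 = 2 := by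
  have h1 : ∀ g : G4, g ^ 2 = 1 := by decide +kernel
  have h2 : Monoid.exponent G4 ∣ 2 := Monoid.exponent_dvd_of_forall_pow_eq_one h1
  rcases (Nat.dvd_prime Nat.prime_two).1 h2 with h | h
  · exfalso
    have h3 : (Multiplicative.ofAdd ((1 : ZMod 2), (0 : ZMod 2), (0 : ZMod 2), (0 : ZMod 2)) : G4)
        ^ Monoid.exponent G4 = 1 := Monoid.pow_exponent_eq_one _
    rw [h] at h3
    revert h3
    decide
  · exact h

theorem act_apply {G : Type} [Group G] {d : ℕ} (r : AffAction G d) (g : G) (x : Fin d → ℝ)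
    (i : Fin d) : r.act g x i = ∑ j, ((r.A g i j : ℤ) : ℝ) * x j + r.b g i := by
  simp [AffAction.act, Matrix.mulVec, dotProduct]

theorem act_cast {G : Type} [Group G] {d : ℕ} (r : AffAction G d) (g : G) (v : Fin d → ℤ) :
    r.act g (fun j => ((v j : ℤ) : ℝ)) = fun j => ((((r.A g).mulVec v + r.b g) j : ℤ) : ℝ) := by
  funext i
  rw [act_apply]
  simp [Matrix.mulVec, dotProduct]

theorem act_mul {G : Type} [Group G] {d : ℕ} (r : AffAction G d) (g h : G) (x : Fin d → ℝ) :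
    r.act (g * h) x = r.act g (r.act h x) := by
  funext i
  have e : ∀ j, ((r.A (g * h) i j : ℤ) : ℝ) = ∑ k, ((r.A g i k : ℤ) : ℝ) * (r.A h k j : ℤ) := by
    intro j
    rw [r.A_mul, Matrix.mul_apply]
    push_cast
    rfl
  have e2 : ((r.b (g * h) i : ℤ) : ℝ) = ∑ k, ((r.A g i k : ℤ) : ℝ) * (r.b h k : ℤ) + r.b g i := by
    rw [r.b_mul]
    simp [Matrix.mulVec, dotProduct]
  rw [act_apply, act_apply, e2]
  simp only [act_apply, e]
  have e3 : ∑ j, (∑ k, ((r.A g i k : ℤ) : ℝ) * (r.A h k j : ℤ)) * x j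
      = ∑ k, ((r.A g i k : ℤ) : ℝ) * ∑ j, ((r.A h k j : ℤ) : ℝ) * x j := by
    simp only [Finset.sum_mul, Finset.mul_sum]
    rw [Finset.sum_comm]
    refine Finset.sum_congr rfl fun k _ => Finset.sum_congr rfl fun j _ => ?_
    ring
  rw [e3]
  simp only [mul_add, Finset.sum_add_distrib]
  ring

theorem act_one {G : Type} [Group G] {d : ℕ} (r : AffAction G d) (x : Fin d → ℝ) :
    r.act 1 x = x := by
  funext i
  rw [act_apply, r.A_one, r.b_one]
  simp [Matrix.one_apply]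

theorem poly_inv_le {G : Type} [Group G] {d : ℕ} (r : AffAction G d) (W : Finset (Fin d → ℤ))
    (hW : ∀ g : G, ∀ v ∈ W, (r.A g).mulVec v + r.b g ∈ W) (g : G) :
    r.act g '' poly W ⊆ poly W := by
  unfold poly
  rw [AffineMap.image_convexHull]
  refine convexHull_mono ?_
  rintro _ ⟨_, ⟨v, hv, rfl⟩, rfl⟩
  exact ⟨_, hW g v hv, (act_cast r g v).symm⟩

theorem poly_inv {G : Type} [Group G] {d : ℕ} (r : AffAction G d) (W : Finset (Fin d → ℤ))
    (hW : ∀ g : G, ∀ v ∈ W, (r.A g).mulVec v + r.b g ∈ W) (g : G) :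
    r.act g '' poly W = poly W := by
  refine Set.Subset.antisymm (poly_inv_le r W hW g) ?_
  intro x hx
  refine ⟨r.act g⁻¹ x, poly_inv_le r W hW g⁻¹ ⟨x, hx, rfl⟩, ?_⟩
  rw [← act_mul, mul_inv_cancel, act_one]

/-! ### A face fixed by the group -/

open Classical in
/-- an invariant triangulation has an invariant simplex -/
theorem exists_inv_face {G : Type} [Group G] {d : ℕ} (r : AffAction G d)
    (K : SimplicialComplex ℝ (Fin d → ℝ)) (hK : Invariant r K) (p : Fin d → ℝ)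
    (hp : p ∈ K.space) (hfix : ∀ g, r.act g p = p) :
    ∃ s ∈ K.faces, ∀ g, ∀ x ∈ s, r.act g x ∈ s := by
  have hex : ∃ n : ℕ, ∃ s ∈ K.faces, p ∈ convexHull ℝ (s : Set (Fin d → ℝ)) ∧ s.card = n := by
    obtain ⟨s, hs, hps⟩ := SimplicialComplex.mem_space_iff.1 hp
    exact ⟨_, s, hs, hps, rfl⟩
  obtain ⟨s, hs, hps, hcard⟩ := Nat.find_spec hex
  have hmin : ∀ t ∈ K.faces, p ∈ convexHull ℝ (t : Set (Fin d → ℝ)) → s.card ≤ t.card := by
    intro t ht hpt
    rw [hcard]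
    exact Nat.find_min' hex ⟨t, ht, hpt, rfl⟩
  refine ⟨s, hs, fun g x hx => ?_⟩
  have ht : s.image (r.act g) ∈ K.faces := hK g s hs
  have hpt : p ∈ convexHull ℝ ((s.image (r.act g) : Finset (Fin d → ℝ)) : Set (Fin d → ℝ)) := by
    rw [Finset.coe_image, ← AffineMap.image_convexHull]
    exact ⟨p, hps, hfix g⟩
  have hpi : p ∈ convexHull ℝ ((s ∩ s.image (r.act g) : Finset (Fin d → ℝ)) : Set (Fin d → ℝ)) := by
    rw [Finset.coe_inter]
    exact K.inter_subset_convexHull hs ht ⟨hps, hpt⟩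
  have hne : (s ∩ s.image (r.act g)).Nonempty := by
    rw [← Finset.coe_nonempty]
    exact convexHull_nonempty_iff.1 ⟨p, hpi⟩
  have hf : s ∩ s.image (r.act g) ∈ K.faces := K.down_closed hs Finset.inter_subset_left hne
  have h1 := hmin _ hf hpi
  have h2 : s ∩ s.image (r.act g) = s := Finset.eq_of_subset_of_card_le Finset.inter_subset_left h1
  have h3 : s ⊆ s.image (r.act g) := Finset.inter_eq_left.1 h2
  have h4 : s = s.image (r.act g) := Finset.eq_of_subset_of_card_le h3 Finset.card_image_le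
  rw [h4]
  exact Finset.mem_image_of_mem _ hx

/-- a parallelogram is affinely dependent -/
theorem no_parallelogram {E : Type*} [AddCommGroup E] [Module ℝ E] (s : Finset E)
    (h : AffineIndependent ℝ ((↑) : s → E)) (a b c d : E) (ha : a ∈ s) (hb : b ∈ s) (hc : c ∈ s)
    (hd : d ∈ s) (hab : a ≠ b) (hac : a ≠ c) (hsum : a + d = b + c) : False := by
  classical
  rw [affineIndependent_iff] at h
  have key := h Finset.univ (fun x : s => (if x = ⟨a, ha⟩ then (1 : ℝ) else 0)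
    + (if x = ⟨d, hd⟩ then 1 else 0) - (if x = ⟨b, hb⟩ then 1 else 0)
    - (if x = ⟨c, hc⟩ then 1 else 0)) ?_ ?_ ⟨a, ha⟩ (Finset.mem_univ _)
  · have e1 : (⟨a, ha⟩ : s) ≠ ⟨b, hb⟩ := fun e => hab (congrArg Subtype.val e)
    have e2 : (⟨a, ha⟩ : s) ≠ ⟨c, hc⟩ := fun e => hac (congrArg Subtype.val e)
    simp only [if_true, if_neg e1, if_neg e2] at key
    split_ifs at key <;> linarith
  · simp [Finset.sum_sub_distrib, Finset.sum_add_distrib]
  · simp only [sub_smul, add_smul, ite_smul, one_smul, zero_smul, Finset.sum_sub_distrib,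
      Finset.sum_add_distrib, Finset.sum_ite_eq', Finset.mem_univ, if_true]
    rw [hsum]
    abel

/-! ### The explicit action -/

/-- group elements -/
def ga : G4 := Multiplicative.ofAdd (1, 0, 0, 0)
/-- group elements -/
def gb : G4 := Multiplicative.ofAdd (0, 1, 0, 0)
/-- group elements -/
def gc : G4 := Multiplicative.ofAdd (0, 0, 1, 0)
/-- group elements -/
def gd : G4 := Multiplicative.ofAdd (0, 0, 0, 1)

theorem act_formula (g : G4) (x : Fin 6 → ℝ) (i : Fin 6) :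
    ρ.act g x i = ((A6 g i 0 : ℤ) : ℝ) * x 0 + ((A6 g i 1 : ℤ) : ℝ) * x 1
      + ((A6 g i 2 : ℤ) : ℝ) * x 2 + ((A6 g i 3 : ℤ) : ℝ) * x 3 + ((A6 g i 4 : ℤ) : ℝ) * x 4
      + ((A6 g i 5 : ℤ) : ℝ) * x 5 + b6 g i := by
  rw [act_apply, Fin.sum_univ_six]
  rfl

theorem Aga : A6 ga = !![-1, -1, -1, 0, 0, 0; 0, 0, 1, 0, 0, 0; 0, 1, 0, 0, 0, 0;
    0, 0, 0, 1, 0, 0; 0, 0, 0, 0, 1, 0; 0, 0, 0, 0, 0, 1] := by decide +kernel
theorem bga : b6 ga = ![1, 0, 0, 0, 0, 0] := by decide +kernel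
theorem Agb : A6 gb = !![0, 0, 1, 0, 0, 0; -1, -1, -1, 0, 0, 0; 1, 0, 0, 0, 0, 0;
    0, 0, 0, 1, 0, 0; 0, 0, 0, 0, 1, 0; 0, 0, 0, 0, 0, 1] := by decide +kernel
theorem bgb : b6 gb = ![0, 1, 0, 0, 0, 0] := by decide +kernel
theorem Agc : A6 gc = !![1, 0, 0, 0, 0, 0; 0, 1, 0, 0, 0, 0; 0, 0, 1, 0, 0, 0;
    0, 0, 0, -1, -1, -1; 0, 0, 0, 0, 0, 1; 0, 0, 0, 0, 1, 0] := by decide +kernel
theorem bgc : b6 gc = ![0, 0, 0, 1, 0, 0] := by decide +kernel
theorem Agd : A6 gd = !![1, 0, 0, 0, 0, 0; 0, 1, 0, 0, 0, 0; 0, 0, 1, 0, 0, 0;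
    0, 0, 0, 0, 0, 1; 0, 0, 0, -1, -1, -1; 0, 0, 0, 1, 0, 0] := by decide +kernel
theorem bgd : b6 gd = ![0, 0, 0, 0, 1, 0] := by decide +kernel

theorem act_ga (x : Fin 6 → ℝ) :
    ρ.act ga x = ![1 - x 0 - x 1 - x 2, x 2, x 1, x 3, x 4, x 5] := by
  funext i
  rw [act_formula, Aga, bga]
  fin_cases i <;> simp <;> ring

theorem act_gb (x : Fin 6 → ℝ) :
    ρ.act gb x = ![x 2, 1 - x 0 - x 1 - x 2, x 0, x 3, x 4, x 5] := by
  funext i
  rw [act_formula, Agb, bgb]
  fin_cases i <;> simp <;> ring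

theorem act_gc (x : Fin 6 → ℝ) :
    ρ.act gc x = ![x 0, x 1, x 2, 1 - x 3 - x 4 - x 5, x 5, x 4] := by
  funext i
  rw [act_formula, Agc, bgc]
  fin_cases i <;> simp <;> ring

theorem act_gd (x : Fin 6 → ℝ) :
    ρ.act gd x = ![x 0, x 1, x 2, x 5, 1 - x 3 - x 4 - x 5, x 3] := by
  funext i
  rw [act_formula, Agd, bgd]
  fin_cases i <;> simp <;> ring

/-- the centre of `Δ_3 × Δ_3` -/
noncomputable def ctr : Fin 6 → ℝ := fun _ => 1 / 4

theorem ctr_fix : ∀ g : G4, ρ.act g ctr = ctr := by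
  have h : ∀ g : G4, ∀ i, A6 g i 0 + A6 g i 1 + A6 g i 2 + A6 g i 3 + A6 g i 4 + A6 g i 5
      + 4 * b6 g i = 1 := by decide +kernel
  intro g
  funext i
  rw [act_formula]
  have h' := h g i
  have h'' : ((A6 g i 0 : ℤ) : ℝ) + A6 g i 1 + A6 g i 2 + A6 g i 3 + A6 g i 4 + A6 g i 5
      + 4 * b6 g i = 1 := by exact_mod_cast h'
  simp only [ctr]
  linarith

theorem mem_poly (v : Fin 6 → ℤ) (hv : v ∈ V) : (fun j => ((v j : ℤ) : ℝ)) ∈ poly V :=
  subset_convexHull ℝ _ ⟨v, hv, rfl⟩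

theorem ctr_mem : ctr ∈ poly V := by
  have hc : Convex ℝ (poly V) := convex_convexHull ℝ _
  have hx : ctr = ∑ p : Option (Fin 3) × Option (Fin 3), (1 / 16 : ℝ) • (fun j : Fin 6 =>
      (((fun i : Fin 6 => if h : i.1 < 3 then (if p.1 = some ⟨i.1, h⟩ then 1 else 0)
    else (if p.2 = some ⟨i.1 - 3, by omega⟩ then 1 else 0) : Fin 6 → ℤ) j : ℤ) : ℝ)) := by
    have hsum : ∀ j : Fin 6, ∑ p : Option (Fin 3) × Option (Fin 3),
      ((fun i : Fin 6 => if h : i.1 < 3 then (if p.1 = some ⟨i.1, h⟩ then 1 else 0)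
    else (if p.2 = some ⟨i.1 - 3, by omega⟩ then 1 else 0) : Fin 6 → ℤ) j : ℤ) = 4 := by
      decide +kernel
    funext j
    rw [Finset.sum_apply]
    simp only [Pi.smul_apply, smul_eq_mul]
    rw [← Finset.mul_sum]
    have := hsum j
    have h2 : (∑ p : Option (Fin 3) × Option (Fin 3),
      (((fun i : Fin 6 => if h : i.1 < 3 then (if p.1 = some ⟨i.1, h⟩ then 1 else 0)
    else (if p.2 = some ⟨i.1 - 3, by omega⟩ then 1 else 0) : Fin 6 → ℤ) j : ℤ) : ℝ)) = 4 := by
      exact_mod_cast this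
    rw [h2]
    norm_num [ctr]
  rw [hx]
  refine hc.sum_mem (fun p _ => by norm_num) ?_ (fun p _ => mem_poly _ ?_)
  · rw [Finset.sum_const, Finset.card_univ]
    simp [Fintype.card_option]
  · exact Finset.mem_image_of_mem _ (Finset.mem_univ p)

/-- the polytope is full-dimensional -/
theorem full : affineSpan ℝ (poly V) = ⊤ := by
  have h0 : (fun _ => (0 : ℝ) : Fin 6 → ℝ) ∈ affineSpan ℝ (poly V) := by
    have h : (fun _ => (0 : ℤ) : Fin 6 → ℤ) ∈ V := by decide +kernel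
    have := subset_affineSpan ℝ _ (mem_poly _ h)
    simpa using this
  have h1 : ∀ k : Fin 6, (Pi.single k (1 : ℝ) : Fin 6 → ℝ) ∈ affineSpan ℝ (poly V) := by
    intro k
    have h : ∀ k : Fin 6, (Pi.single k (1 : ℤ) : Fin 6 → ℤ) ∈ V := by decide +kernel
    have := subset_affineSpan ℝ _ (mem_poly _ (h k))
    have e : (fun j => ((((Pi.single k (1 : ℤ) : Fin 6 → ℤ)) j : ℤ) : ℝ))
        = (Pi.single k (1 : ℝ) : Fin 6 → ℝ) := by
      funext j
      by_cases hj : j = k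
      · subst hj; simp
      · simp [Pi.single_eq_of_ne hj]
    rw [e] at this
    exact this
  have hne : (affineSpan ℝ (poly V) : Set (Fin 6 → ℝ)).Nonempty := ⟨_, h0⟩
  rw [← AffineSubspace.direction_eq_top_iff_of_nonempty hne, eq_top_iff]
  intro x _
  have hx : x = ∑ k, x k • (Pi.single k (1 : ℝ) : Fin 6 → ℝ) := by
    funext j
    simp [Finset.sum_apply, Pi.single_apply]
  rw [hx]
  refine Submodule.sum_mem _ fun k _ => Submodule.smul_mem _ _ ?_
  have := AffineSubspace.vsub_mem_direction (h1 k) h0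
  have e : (Pi.single k (1 : ℝ) : Fin 6 → ℝ) -ᵥ (fun _ => (0 : ℝ) : Fin 6 → ℝ)
      = Pi.single k (1 : ℝ) := by
    funext j
    simp
  rwa [e] at this

/-- Main argument. -/
theorem no_triangulation (N : ℕ) (hN : ¬ 4 ∣ N) (K : SimplicialComplex ℝ (Fin 6 → ℝ))
    (hT : IsTriangulation K (poly V)) (hV : VerticesIn K N) : ¬ Invariant ρ K := by
  intro hK
  obtain ⟨s, hs, hinv⟩ := exists_inv_face ρ K hK ctr (by rw [hT.2]; exact ctr_mem) ctr_fix
  obtain ⟨v, hv⟩ := SimplicialComplex.nonempty_of_mem_faces hs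
  have hvK : v ∈ K.vertices := by
    rw [SimplicialComplex.vertices_eq]
    exact Set.mem_biUnion hs (Finset.mem_coe.2 hv)
  obtain ⟨z, hz⟩ := hV v hvK
  -- a coordinate equal to 1/4 is impossible
  have hquarter : ∀ i, v i ≠ 1 / 4 := by
    intro i hi
    have h1 := hz i
    rw [hi] at h1
    have h2 : (N : ℝ) = 4 * z i := by linarith
    have h3 : (N : ℤ) = 4 * z i := by exact_mod_cast h2
    exact hN (by omega)
  -- first block is moved by `ga` or `gb`
  have hmove1 : ∃ g : G4, (g = ga ∨ g = gb) ∧ ρ.act g v ≠ v := by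
    by_contra hcon
    push Not at hcon
    have h1 := hcon ga (Or.inl rfl)
    have h2 := hcon gb (Or.inr rfl)
    rw [act_ga] at h1
    rw [act_gb] at h2
    have a0 : 1 - v 0 - v 1 - v 2 = v 0 := congrFun h1 0
    have a1 : v 2 = v 1 := congrFun h1 1
    have a2 : v 2 = v 0 := congrFun h2 0
    exact hquarter 0 (by linarith)
  have hmove2 : ∃ g : G4, (g = gc ∨ g = gd) ∧ ρ.act g v ≠ v := by
    by_contra hcon
    push Not at hcon
    have h1 := hcon gc (Or.inl rfl)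
    have h2 := hcon gd (Or.inr rfl)
    rw [act_gc] at h1
    rw [act_gd] at h2
    have a0 : 1 - v 3 - v 4 - v 5 = v 3 := congrFun h1 3
    have a1 : v 5 = v 4 := congrFun h1 4
    have a2 : v 5 = v 3 := congrFun h2 3
    exact hquarter 3 (by linarith)
  obtain ⟨g, hg, hgv⟩ := hmove1
  obtain ⟨h, hh, hhv⟩ := hmove2
  refine no_parallelogram s (K.indep hs) v (ρ.act g v) (ρ.act h v) (ρ.act g (ρ.act h v)) hv
    (hinv g v hv) (hinv h v hv) (hinv g _ (hinv h v hv)) (Ne.symm hgv) (Ne.symm hhv) ?_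
  rcases hg with rfl | rfl <;> rcases hh with rfl | rfl
  · rw [act_gc, act_ga, act_ga]
    funext i
    fin_cases i <;> simp <;> ring
  · rw [act_gd, act_ga, act_ga]
    funext i
    fin_cases i <;> simp <;> ring
  · rw [act_gc, act_gb, act_gb]
    funext i
    fin_cases i <;> simp <;> ring
  · rw [act_gd, act_gb, act_gb]
    funext i
    fin_cases i <;> simp <;> ring

/-- **Negative answer to Q1.**  There are a finite group `G`, an action `ρ : G → Aff(ℤ^d)` and a
full-dimensional `G`-invariant lattice polytope `P` having no `G`-invariant triangulation (regular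
or not) with vertices in `(1/e(G)) ℤ^d`; in fact for this `P` there is no such triangulation with
vertices in `(1/N) ℤ^d` for any `N` not divisible by `4`, while `e(G) = 2`. -/
theorem result : ∃ (G : Type) (_ : Group G) (_ : Fintype G) (d : ℕ) (r : AffAction G d)
    (W : Finset (Fin d → ℤ)),
    affineSpan ℝ (poly W) = ⊤ ∧ (∀ g, r.act g '' poly W = poly W) ∧
    (∀ K : SimplicialComplex ℝ (Fin d → ℝ), IsTriangulation K (poly W) →
      VerticesIn K (Monoid.exponent G) → ¬ Invariant r K) ∧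
    Monoid.exponent G = 2 ∧
    ∀ N : ℕ, ¬ 4 ∣ N → ∀ K : SimplicialComplex ℝ (Fin d → ℝ), IsTriangulation K (poly W) →
      VerticesIn K N → ¬ Invariant r K := by
  refine ⟨G4, inferInstance, inferInstance, 6, ρ, V, full, poly_inv ρ V V_inv, ?_, exponent_G4,
    fun N hN K h1 h2 => no_triangulation N hN K h1 h2⟩
  intro K h1 h2
  rw [exponent_G4] at h2
  exact no_triangulation 2 (by norm_num) K h1 h2

end Pool.Agent.Results.MP_ee8878_co.NoInvariantTriangulation
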